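import Pool.Agent.Helper8.Kak.DefsC
import Pool.Agent.Helper41.Kak.B4

/-! Module B6 of MP_013a6c_an: isomorphism of `TT t` and `TT s` by Borel-Cantelli. -/

open MeasureTheory Set Topology Filter
open scoped symmDiff ENNReal ProbabilityTheory

namespace KakC

namespace B6

variable (t s : ℕ → ℕ)

/-- the bad event of stage `k` -/
def Bad (k : ℕ) : Set PP :=
  {ξ | min (t k) (s k) * Q k ≤ ((ξ (k + 1)).2 : ℕ) ∧ ((ξ (k + 1)).2 : ℕ) < max (t k) (s k) * Q k}

/-- no bad event from `K` on -/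
def Gd (K : ℕ) : Set PP := {ξ | ∀ k, K ≤ k → ξ ∉ Bad t s k}

lemma Bad_comm (k : ℕ) : Bad t s k = Bad s t k := by
  unfold Bad
  rw [min_comm, max_comm]

lemma Gd_comm (K : ℕ) : Gd t s K = Gd s t K := by
  unfold Gd
  simp only [Bad_comm t s]

lemma measurableSet_Bad (k : ℕ) : MeasurableSet (Bad t s k) := by
  have h1 : Measurable (fun ξ : PP => ((ξ (k + 1)).2 : ℕ)) :=
    (measurable_of_countable (fun x : Fin (N (k + 1)) × Fin (B (k + 1)) => (x.2 : ℕ))).comp
      (measurable_pi_apply (k + 1))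
  exact (measurableSet_le measurable_const h1).inter (measurableSet_lt h1 measurable_const)

lemma measurableSet_Gd (K : ℕ) : MeasurableSet (Gd t s K) := by
  have h1 : Gd t s K = ⋂ k, {ξ | K ≤ k → ξ ∉ Bad t s k} := by
    ext ξ
    simp [Gd]
  rw [h1]
  refine MeasurableSet.iInter (fun k => ?_)
  by_cases hk : K ≤ k
  · have h2 : {ξ : PP | K ≤ k → ξ ∉ Bad t s k} = (Bad t s k)ᶜ := by
      ext ξ
      simp [hk]
    rw [h2]
    exact (measurableSet_Bad t s k).compl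
  · have h2 : {ξ : PP | K ≤ k → ξ ∉ Bad t s k} = Set.univ := by
      ext ξ
      simp [hk]
    rw [h2]
    exact MeasurableSet.univ

lemma Gd_mono : Monotone (Gd t s) := by
  intro K K' hKK ξ hξ k hk
  exact hξ k (hKK.trans hk)

variable {t s}

lemma Gd_congr {K : ℕ} {ξ η : PP} (h : ∀ j, K < j → ξ j = η j) (hξ : ξ ∈ Gd t s K) :
    η ∈ Gd t s K := by
  intro k hk hb
  apply hξ k hk
  unfold Bad at hb ⊢
  rw [Set.mem_ofPred_eq] at hb ⊢
  rw [h (k + 1) (by omega)]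
  exact hb

lemma lam_Bad (ht : ∀ k, t k ≤ M k) (hs : ∀ k, s k ≤ M k) (k : ℕ) :
    lam (Bad t s k) = ENNReal.ofReal (|(t k : ℝ) - s k| / M k) := by
  have hmax : max (t k) (s k) * Q k ≤ B (k + 1) := by
    change max (t k) (s k) * Q k ≤ M k * Q k
    exact Nat.mul_le_mul_right _ (max_le (ht k) (hs k))
  have h1 := lam_digit (k + 1) (p := min (t k) (s k) * Q k) (q := max (t k) (s k) * Q k)
    (Nat.mul_le_mul_right _ (min_le_max)) hmax
  have h2 : lam (Bad t s k) = _ := h1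
  rw [h2]
  have hQ : (0 : ℝ) < Q k := by exact_mod_cast Q_pos k
  have hM : (0 : ℝ) < M k := by exact_mod_cast M_pos k
  have h3 : |(t k : ℝ) - s k| = ((max (t k) (s k) - min (t k) (s k) : ℕ) : ℝ) := by
    rw [Nat.cast_sub min_le_max, Nat.cast_max, Nat.cast_min, max_sub_min_eq_abs']
  have h4 : B (k + 1) = M k * Q k := rfl
  rw [← Nat.sub_mul, h4, Nat.cast_mul, Nat.cast_mul, h3,
    ENNReal.ofReal_div_of_pos hM, ENNReal.ofReal_natCast, ENNReal.ofReal_natCast]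
  rw [ENNReal.mul_div_mul_right _ _ (by exact_mod_cast (Q_pos k).ne') (ENNReal.natCast_ne_top _)]

lemma ae_Gd (ht : ∀ k, t k ≤ M k) (hs : ∀ k, s k ≤ M k)
    (hsum : Summable (fun k => |(t k : ℝ) - s k| / M k)) :
    ∀ᵐ ξ ∂lam, ∃ K, ξ ∈ Gd t s K := by
  have h1 : ∑' k, lam (Bad t s k) ≠ ∞ := by
    simp only [lam_Bad ht hs]
    rw [← ENNReal.ofReal_tsum_of_nonneg (fun k => by positivity) hsum]
    exact ENNReal.ofReal_ne_top
  filter_upwards [ae_eventually_notMem h1] with ξ hξ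
  obtain ⟨K, hK⟩ := Filter.eventually_atTop.mp hξ
  exact ⟨K, fun k hk => hK k hk⟩

/-- extensionality -/
lemma ext_w {K : ℕ} {η η' : PP} (hw : w s K η = w s K η') (h : ∀ j, K < j → η j = η' j) :
    η = η' := by
  funext j
  rcases le_or_gt j K with hj | hj
  · exact w_inj hw j hj
  · exact h j hj

/-- the maps `R K` -/
def R (t s : ℕ → ℕ) (K : ℕ) (ξ : PP) : PP := repl s K (w t K ξ) ξ

lemma w_R (K : ℕ) (ξ : PP) : w s K (R t s K ξ) = w t K ξ := w_repl s (w_mem t K ξ) ξ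

lemma R_above {K j : ℕ} (hj : K < j) (ξ : PP) : R t s K ξ j = ξ j := repl_above s hj _ ξ

lemma w_R_above {K : ℕ} {ξ : PP} (hξ : ξ ∈ Gd t s K) {k : ℕ} (hk : K ≤ k) :
    w s k (R t s K ξ) = w t k ξ := by
  induction k, hk using Nat.le_induction with
  | base => exact w_R K ξ
  | succ k hk ih =>
    have h1 : R t s K ξ (k + 1) = ξ (k + 1) := R_above (by omega) ξ
    have h2 : ((R t s K ξ k).1 : ℕ) = (ξ k).1 := by
      rw [← w_fst s k, ih, w_fst]
    have h3 : w s (k + 1) (R t s K ξ) = (((R t s K ξ (k + 1)).1 : ℕ),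
        pos k (s k) (R t s K ξ (k + 1)).1 (R t s K ξ k).1 (R t s K ξ (k + 1)).2 * h k +
          (w s k (R t s K ξ)).2) := rfl
    have h4 : w t (k + 1) ξ = (((ξ (k + 1)).1 : ℕ),
        pos k (t k) (ξ (k + 1)).1 (ξ k).1 (ξ (k + 1)).2 * h k + (w t k ξ).2) := rfl
    rw [h3, h4, h1, h2, ih]
    have h5 : pos k (s k) (ξ (k + 1)).1 (ξ k).1 (ξ (k + 1)).2 =
        pos k (t k) (ξ (k + 1)).1 (ξ k).1 (ξ (k + 1)).2 := by
      apply pos_congr
      have h6 := hξ k hk
      unfold Bad at h6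
      rw [Set.mem_ofPred_eq, not_and, not_lt] at h6
      rcases le_total (t k) (s k) with hts | hts
      · rw [min_eq_left hts, max_eq_right hts] at h6
        have h7 : t k * Q k ≤ s k * Q k := Nat.mul_le_mul_right _ hts
        constructor
        · intro h8
          by_contra h9
          have := h6 (by omega)
          omega
        · intro h8
          omega
      · rw [min_eq_right hts, max_eq_left hts] at h6
        have h7 : s k * Q k ≤ t k * Q k := Nat.mul_le_mul_right _ hts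
        constructor
        · intro h8
          omega
        · intro h8
          by_contra h9
          have := h6 (by omega)
          omega
    rw [h5]

lemma R_eq {K K' : ℕ} {ξ : PP} (hξ : ξ ∈ Gd t s K) (hKK : K ≤ K') :
    R t s K ξ = R t s K' ξ := by
  apply ext_w (s := s) (K := K')
  · rw [w_R_above hξ hKK, w_R]
  · intro j hj
    rw [R_above (by omega), R_above hj]

open Classical in
/-- the isomorphism -/
noncomputable def phi (t s : ℕ → ℕ) (ξ : PP) : PP :=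
  R t s (Nat.find (p := fun K => ξ ∈ Gd t s K ∨ ∀ m, ξ ∉ Gd t s m) (by
    by_cases hK : ∃ K, ξ ∈ Gd t s K
    · exact ⟨hK.choose, Or.inl hK.choose_spec⟩
    · push Not at hK
      exact ⟨0, Or.inr hK⟩)) ξ

lemma phi_eq {K : ℕ} {ξ : PP} (hξ : ξ ∈ Gd t s K) : phi t s ξ = R t s K ξ := by
  classical
  have hex : ∃ K, ξ ∈ Gd t s K ∨ ∀ m, ξ ∉ Gd t s m := ⟨K, Or.inl hξ⟩
  have h1 : phi t s ξ = R t s (Nat.find hex) ξ := by
    unfold phi
    congr!
  rw [h1]
  apply R_eq _ (Nat.find_min' hex (Or.inl hξ))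
  rcases Nat.find_spec hex with h2 | h2
  · exact h2
  · exact absurd hξ (h2 K)

lemma measurable_R (K : ℕ) : Measurable (R t s K) :=
  measurable_repl s K (measurable_w t K) measurable_id

lemma measurable_phi : Measurable (phi t s) := by
  classical
  unfold phi
  apply Measurable.find (f := fun K ξ => R t s K ξ) (fun K => measurable_R K)
  intro K
  have h1 : {ξ : PP | ξ ∈ Gd t s K ∨ ∀ m, ξ ∉ Gd t s m} = Gd t s K ∪ ⋂ m, (Gd t s m)ᶜ := by
    ext ξ
    simp
  rw [h1]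
  exact (measurableSet_Gd t s K).union
    (MeasurableSet.iInter (fun m => (measurableSet_Gd t s m).compl))

lemma mp_R (K : ℕ) : MeasurePreserving (R t s K) lam lam :=
  mp_repl t s K (e := id) (Set.bijOn_id _)

lemma tendsto_Gd (ht : ∀ k, t k ≤ M k) (hs : ∀ k, s k ≤ M k)
    (hsum : Summable (fun k => |(t k : ℝ) - s k| / M k)) :
    Tendsto (fun K => lam (Gd t s K)ᶜ) atTop (𝓝 0) := by
  have hprob := lam_prob
  have h1 : lam (⋂ K, (Gd t s K)ᶜ) = 0 := by
    have h2 := ae_Gd ht hs hsum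
    rw [ae_iff] at h2
    rw [← h2]
    congr 1
    ext ξ
    simp
  rw [← h1]
  apply tendsto_measure_iInter_atTop
  · exact fun K => (measurableSet_Gd t s K).compl.nullMeasurableSet
  · intro K K' hKK
    exact Set.compl_subset_compl.mpr (Gd_mono t s hKK)
  · exact ⟨0, measure_ne_top _ _⟩

lemma mp_phi (ht : ∀ k, t k ≤ M k) (hs : ∀ k, s k ≤ M k)
    (hsum : Summable (fun k => |(t k : ℝ) - s k| / M k)) :
    MeasurePreserving (phi t s) lam lam := by
  have hprob := lam_prob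
  exact mp_limit (R := R t s) (F := Gd t s) (fun K => mp_R K) measurable_phi
    (tendsto_Gd ht hs hsum) (fun K ξ hξ => phi_eq hξ)

lemma phi_phi {K : ℕ} {ξ : PP} (hξ : ξ ∈ Gd t s K) : phi s t (phi t s ξ) = ξ := by
  rw [phi_eq hξ]
  have h1 : R t s K ξ ∈ Gd s t K := by
    rw [← Gd_comm]
    exact Gd_congr (fun j hj => (R_above hj ξ).symm) hξ
  rw [phi_eq h1]
  apply ext_w (s := t) (K := K)
  · rw [w_R, w_R]
  · intro j hj
    rw [R_above hj, R_above hj]

lemma ae_top (t : ℕ → ℕ) : ∀ᵐ ξ ∂lam, ∀ K, ∃ k, K ≤ k ∧ (w t k ξ).2 + 1 < h k := by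
  rw [ae_all_iff]
  intro K
  rw [ae_iff]
  have h1 : ∀ k, K ≤ k → lam {ξ | ¬ ∃ k, K ≤ k ∧ (w t k ξ).2 + 1 < h k} ≤
      ((h k : ℕ) : ℝ≥0∞)⁻¹ := by
    intro k hk
    refine (measure_mono ?_).trans (lam_top t k)
    intro ξ hξ hk'
    exact hξ ⟨k, hk, hk'⟩
  have h2 : Tendsto (fun k => ((h k : ℕ) : ℝ≥0∞)⁻¹) atTop (𝓝 0) :=
    ENNReal.tendsto_inv_nat_nhds_zero.comp tendsto_h
  apply le_antisymm _ (zero_le)
  apply ge_of_tendsto h2
  filter_upwards [eventually_ge_atTop K] with k hk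
  exact h1 k hk

end B6

/-! Module B6: isomorphism of `TT t` and `TT s` when `∑ |t k - s k| / M k < ∞`. -/

theorem TT_iso {t s : ℕ → ℕ} (ht : ∀ k, t k ≤ M k) (hs : ∀ k, s k ≤ M k)
    (hsum : Summable (fun k => |(t k : ℝ) - s k| / M k)) :
    ∃ φ ψ : PP → PP, MeasurePreserving φ lam lam ∧ MeasurePreserving ψ lam lam ∧
      (∀ᵐ ξ ∂lam, ψ (φ ξ) = ξ) ∧ (∀ᵐ ξ ∂lam, φ (ψ ξ) = ξ) ∧
      (∀ᵐ ξ ∂lam, φ (TT t ξ) = TT s (φ ξ)) := by
  have hsum' : Summable (fun k => |(s k : ℝ) - t k| / M k) := by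
    simpa only [abs_sub_comm] using hsum
  refine ⟨B6.phi t s, B6.phi s t, B6.mp_phi ht hs hsum, B6.mp_phi hs ht hsum', ?_, ?_, ?_⟩
  · filter_upwards [B6.ae_Gd ht hs hsum] with ξ hξ
    obtain ⟨K, hK⟩ := hξ
    exact B6.phi_phi hK
  · filter_upwards [B6.ae_Gd hs ht hsum'] with ξ hξ
    obtain ⟨K, hK⟩ := hξ
    exact B6.phi_phi hK
  · filter_upwards [B6.ae_Gd ht hs hsum, B6.ae_top t] with ξ hξ htop
    obtain ⟨K0, hK0⟩ := hξ
    obtain ⟨K, hKK, hl⟩ := htop K0
    have hK := B6.Gd_mono t s hKK hK0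
    have hOm : ((w t K ξ).1, (w t K ξ).2 + 1) ∈ Om K := ⟨(w_mem t K ξ).1, hl⟩
    rw [TT_eq t hl, B6.phi_eq hK]
    have h1 : repl t K ((w t K ξ).1, (w t K ξ).2 + 1) ξ ∈ B6.Gd t s K :=
      B6.Gd_congr (fun j hj => (repl_above t hj _ ξ).symm) hK
    have hl' : (w s K (B6.R t s K ξ)).2 + 1 < h K := by
      rw [B6.w_R]
      exact hl
    rw [B6.phi_eq h1, TT_eq s hl']
    apply B6.ext_w (s := s) (K := K)
    · rw [B6.w_R, w_repl t hOm, B6.w_R, w_repl s hOm]
    · intro j hj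
      rw [B6.R_above hj, repl_above t hj, repl_above s hj, B6.R_above hj]

end KakC
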